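import Pool.Agent.T6.H61.PT.A

/-!
Patterns of squarefree congruent numbers: the local conditions and the count (helper61).
-/

set_option autoImplicit false

open Finset

namespace Pool.Agent.T6.H61.PT

open Pool.Agent.T6.H10.CT

/-- the number `g (g² X⁴ - c⁴)` is congruent -/
theorem cong_gen {g X c n : ℕ} (hg : 0 < g) (hX : 0 < X) (hc : 0 < c) (hn : 0 < n)
    (h : n + c ^ 4 = g ^ 2 * X ^ 4) : Cong (g * n) := by
  have hh : (n : ℤ) + (c : ℤ) ^ 4 = (g : ℤ) ^ 2 * (X : ℤ) ^ 4 := by exact_mod_cast h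
  have hn' : (0 : ℤ) < n := by exact_mod_cast hn
  set D : ℤ := (g : ℤ) ^ 2 * (X : ℤ) ^ 4 - (c : ℤ) ^ 4 - 2 * g * (X : ℤ) ^ 2 * (c : ℤ) ^ 2 with hD
  set Z : ℤ := (g : ℤ) ^ 2 * (X : ℤ) ^ 4 - (c : ℤ) ^ 4 + 2 * g * (X : ℤ) ^ 2 * (c : ℤ) ^ 2 with hZ
  have hZ0 : 0 < Z := by
    have : (0 : ℤ) ≤ 2 * g * (X : ℤ) ^ 2 * (c : ℤ) ^ 2 := by positivity
    rw [hZ]
    linarith
  have hD0 : D ≠ 0 := by
    intro h0
    have e : ((g : ℤ) * (X : ℤ) ^ 2 - (c : ℤ) ^ 2) ^ 2 = 2 * ((c : ℤ) ^ 2) ^ 2 := by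
      rw [hD] at h0
      linear_combination h0
    have er : ((g : ℝ) * (X : ℝ) ^ 2 - (c : ℝ) ^ 2) ^ 2 = 2 * ((c : ℝ) ^ 2) ^ 2 := by
      exact_mod_cast e
    have hc' : (0 : ℝ) < (c : ℝ) ^ 2 := by
      have : (0 : ℝ) < c := by exact_mod_cast hc
      positivity
    have e2 : (((g : ℝ) * (X : ℝ) ^ 2 - (c : ℝ) ^ 2) / (c : ℝ) ^ 2) ^ 2 = 2 := by
      rw [div_pow, er]
      field_simp
    apply irrational_sqrt_two
    refine ⟨|((g : ℚ) * (X : ℚ) ^ 2 - (c : ℚ) ^ 2) / (c : ℚ) ^ 2|, ?_⟩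
    rw [← e2, Real.sqrt_sq_eq_abs]
    push_cast
    rfl
  refine ⟨g ^ 2 * X ^ 4 + c ^ 4, 2 * (X * c), Z.natAbs, D.natAbs, by positivity, by positivity,
    by omega, by omega, ?_, ?_⟩
  · zify
    rw [sq_abs, hZ]
    linear_combination (4 * (g : ℤ) * (X : ℤ) ^ 2 * (c : ℤ) ^ 2) * hh
  · zify
    rw [sq_abs, hD]
    linear_combination (-4 * (g : ℤ) * (X : ℤ) ^ 2 * (c : ℤ) ^ 2) * hh

/-- a residue class in which all the conditions at the primes `≤ P` hold -/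
theorem local_classC {g : ℕ} {C : Finset ℕ} (hcop : ∀ c ∈ C, Nat.Coprime g c)
    (hloc : ∀ p : ℕ, p.Prime → p ≠ 2 → ¬ p ∣ g → ∃ X : ℤ, ∀ c ∈ C,
      ¬ (p : ℤ) ^ 2 ∣ (g : ℤ) ^ 2 * X ^ 4 - (c : ℤ) ^ 4) (P : ℕ) :
    ∃ k Q : ℕ, 0 < Q ∧ (∀ p : ℕ, p.Prime → p ∣ Q → p ≤ P ∨ p = 2) ∧ ∀ u : ℕ,
      2 ∣ k + Q * u ∧ ∀ p : ℕ, p.Prime → p ≠ 2 → p ≤ P → ∀ c ∈ C,
        ¬ (p : ℤ) ^ 2 ∣ (g : ℤ) ^ 2 * ((k + Q * u : ℕ) : ℤ) ^ 4 - (c : ℤ) ^ 4 := by
  classical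
  have hcong : ∀ (q : ℤ) (c : ℕ) (Y Y' : ℤ), q ∣ Y - Y' →
      q ∣ ((g : ℤ) ^ 2 * Y ^ 4 - (c : ℤ) ^ 4) - ((g : ℤ) ^ 2 * Y' ^ 4 - (c : ℤ) ^ 4) := by
    intro q c Y Y' h
    have e : ((g : ℤ) ^ 2 * Y ^ 4 - (c : ℤ) ^ 4) - ((g : ℤ) ^ 2 * Y' ^ 4 - (c : ℤ) ^ 4) =
        (Y - Y') * ((g : ℤ) ^ 2 * (Y ^ 3 + Y ^ 2 * Y' + Y * Y' ^ 2 + Y' ^ 3)) := by ring
    rw [e]; exact h.mul_right _
  have hloc' : ∀ p : ℕ, ∃ y : ℕ, p.Prime →
      (p = 2 → y = 0) ∧ (p ≠ 2 → ∀ c ∈ C,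
        ¬ (p : ℤ) ^ 2 ∣ (g : ℤ) ^ 2 * (y : ℤ) ^ 4 - (c : ℤ) ^ 4) := by
    intro p
    by_cases hp : p.Prime
    · by_cases hp2 : p = 2
      · exact ⟨0, fun _ => ⟨fun _ => rfl, fun h => absurd hp2 h⟩⟩
      · by_cases hpg : p ∣ g
        · refine ⟨0, fun _ => ⟨fun h => absurd h hp2, fun _ c hc hd => ?_⟩⟩
          have hpp : Prime (p : ℤ) := Nat.prime_iff_prime_int.1 hp
          have h1 : (p : ℤ) ∣ (g : ℤ) ^ 2 * ((0 : ℕ) : ℤ) ^ 4 - (c : ℤ) ^ 4 :=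
            (dvd_pow_self _ two_ne_zero).trans hd
          have h2 : (p : ℤ) ∣ (c : ℤ) ^ 4 := by
            have e : (g : ℤ) ^ 2 * ((0 : ℕ) : ℤ) ^ 4 - (c : ℤ) ^ 4 = -(c : ℤ) ^ 4 := by
              push_cast; ring
            rw [e] at h1
            exact (dvd_neg).1 h1
          have h3 : p ∣ c := by exact_mod_cast hpp.dvd_of_dvd_pow h2
          have h4 := Nat.dvd_gcd hpg h3
          rw [hcop c hc] at h4
          exact hp.one_lt.ne' (Nat.dvd_one.1 h4)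
        · obtain ⟨Y, hY⟩ := hloc p hp hp2 hpg
          obtain ⟨y, hy⟩ := nat_of_int (pow_pos hp.pos 2) Y
          push_cast at hy
          refine ⟨y, fun _ => ⟨fun h => absurd h hp2, fun _ c hc h => hY c hc ?_⟩⟩
          have h1 := hcong _ c _ _ hy
          have e : (g : ℤ) ^ 2 * Y ^ 4 - (c : ℤ) ^ 4 = ((g : ℤ) ^ 2 * (y : ℤ) ^ 4 - (c : ℤ) ^ 4) -
            (((g : ℤ) ^ 2 * (y : ℤ) ^ 4 - (c : ℤ) ^ 4) - ((g : ℤ) ^ 2 * Y ^ 4 - (c : ℤ) ^ 4)) := by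
            ring
          rw [e]; exact dvd_sub h h1
    · exact ⟨0, fun h => absurd h hp⟩
  choose y hy using hloc'
  set s : Finset ℕ := insert 2 ((range (P + 1)).filter Nat.Prime) with hs
  have hsp : ∀ p ∈ s, p.Prime := by
    intro p hp
    rw [hs, mem_insert] at hp
    rcases hp with rfl | hp
    · exact Nat.prime_two
    · exact (mem_filter.1 hp).2
  set m : ℕ → ℕ := fun p => p ^ 2 with hm
  have hm0 : ∀ p ∈ s, m p ≠ 0 := fun p hp => pow_ne_zero _ (hsp p hp).ne_zero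
  have hmp : ∀ p : ℕ, p.Prime → ∀ q : ℕ, q.Prime → q ∣ m p → q = p := by
    intro p hp q hq h
    exact (Nat.prime_dvd_prime_iff_eq hq hp).1 (hq.dvd_of_dvd_pow h)
  have hco : (s : Set ℕ).Pairwise (Function.onFun Nat.Coprime m) := by
    intro p hp q hq hpq
    refine Nat.coprime_of_dvd fun l hl h1 h2 => hpq ?_
    rw [← hmp p (hsp p hp) l hl h1, ← hmp q (hsp q hq) l hl h2]
  obtain ⟨k, hk⟩ := Nat.chineseRemainderOfFinset y m s hm0 hco
  refine ⟨k, ∏ p ∈ s, m p, Nat.pos_of_ne_zero (prod_ne_zero_iff.2 hm0), ?_, ?_⟩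
  · intro p hp hd
    obtain ⟨q, hq, hpq⟩ := (Prime.dvd_finsetProd_iff (Nat.prime_iff.1 hp) _).1 hd
    have h1 := hmp q (hsp q hq) p hp hpq
    rw [h1]
    rw [hs, mem_insert] at hq
    rcases hq with h | h
    · exact Or.inr h
    · left
      have := mem_range.1 (mem_filter.1 h).1
      omega
  · intro u
    have hmod : ∀ p ∈ s, k + (∏ p ∈ s, m p) * u ≡ y p [MOD m p] := by
      intro p hp
      have h2 : (∏ p ∈ s, m p) * u ≡ 0 [MOD m p] :=
        (Nat.modEq_zero_iff_dvd).2 ((dvd_prod_of_mem m hp).mul_right u)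
      simpa using (hk p hp).add h2
    constructor
    · have h1 := hmod 2 (mem_insert_self _ _)
      have h2 := (hy 2 Nat.prime_two).1 rfl
      rw [h2] at h1
      have h3 : m 2 ∣ k + (∏ p ∈ s, m p) * u := (Nat.modEq_zero_iff_dvd).1 h1
      exact (dvd_pow_self 2 two_ne_zero).trans h3
    · intro p hp hp2 hpP c hc h
      have hps : p ∈ s := mem_insert_of_mem (mem_filter.2 ⟨mem_range.2 (by omega), hp⟩)
      have h1 := Nat.modEq_iff_dvd.1 (hmod p hps).symm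
      have h1' : (p : ℤ) ^ 2 ∣ ((k + (∏ p ∈ s, m p) * u : ℕ) : ℤ) - (y p : ℤ) := by
        have e : ((m p : ℕ) : ℤ) = (p : ℤ) ^ 2 := by simp [hm]
        rw [← e]; exact h1
      have h2 := hcong _ c _ _ h1'
      apply (hy p hp).2 hp2 c hc
      have e : (g : ℤ) ^ 2 * ((y p : ℕ) : ℤ) ^ 4 - (c : ℤ) ^ 4 =
        ((g : ℤ) ^ 2 * ((k + (∏ p ∈ s, m p) * u : ℕ) : ℤ) ^ 4 - (c : ℤ) ^ 4) -
        (((g : ℤ) ^ 2 * ((k + (∏ p ∈ s, m p) * u : ℕ) : ℤ) ^ 4 - (c : ℤ) ^ 4) -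
        ((g : ℤ) ^ 2 * ((y p : ℕ) : ℤ) ^ 4 - (c : ℤ) ^ 4)) := by ring
      rw [e]; exact dvd_sub h h2

/-- the numbers `X` for which all the numbers `g³ X⁴ - g c⁴`, `c ∈ C`, are squarefree congruent
numbers in the class `- g` modulo `8` -/
def Good (g : ℕ) (C : Finset ℕ) : Set ℕ :=
  {X | ∀ c ∈ C, ∃ n : ℕ, n + g * c ^ 4 = g ^ 3 * X ^ 4 ∧ 8 ∣ n + g ∧ Squarefree n ∧ Cong n}

open Classical in
theorem main_C {g : ℕ} {C : Finset ℕ} (hg : Squarefree g) (hodd : ∀ c ∈ C, Odd c)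
    (hcop : ∀ c ∈ C, Nat.Coprime g c)
    (hloc : ∀ p : ℕ, p.Prime → p ≠ 2 → ¬ p ∣ g → ∃ X : ℤ, ∀ c ∈ C,
      ¬ (p : ℤ) ^ 2 ∣ (g : ℤ) ^ 2 * X ^ 4 - (c : ℤ) ^ 4) :
    ∃ B M₀ : ℕ, 0 < B ∧ ∀ M : ℕ, M₀ ≤ M → M ≤ 2 * (Good g C ∩ Set.Iic (B * M)).ncard := by
  have hg0 : 0 < g := Nat.pos_of_ne_zero hg.ne_zero
  set K := 4 * C.card + 4 with hK
  set P := 8 * K + g + ∑ c ∈ C, c with hP
  have hcP : ∀ c ∈ C, c ≤ ∑ c ∈ C, c := fun c hc =>
    single_le_sum (f := fun c => c) (fun _ _ => Nat.zero_le _) hc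
  obtain ⟨a, b, hb0, hbP', hl⟩ := local_classC hcop hloc P
  have hbP : ∀ p : ℕ, p.Prime → p ∣ b → p ≤ P := by
    intro p hp h
    rcases hbP' p hp h with h1 | h1
    · exact h1
    · omega
  have hbad : ∀ (c : ℕ) (ε : Bool), ∃ M₀ : ℕ, c ∈ C → ∀ M : ℕ, M₀ ≤ M →
      K * (Bad a b g (if ε then (c : ℤ) ^ 2 else -(c : ℤ) ^ 2) P M).card ≤ M := by
    intro c ε
    by_cases hc : c ∈ C
    · have h1 := hcP c hc
      obtain ⟨M₀, h⟩ := card_badK (e := if ε then (c : ℤ) ^ 2 else -(c : ℤ) ^ 2) hb0 (hodd c hc).pos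
        hg0 (P := P) (K := K) (a := a) (by omega) (by omega) (by omega) (by omega) hbP
        (by cases ε
            · right; rfl
            · left; rfl)
      exact ⟨M₀, fun _ => h⟩
    · exact ⟨0, fun h => absurd h hc⟩
  choose M₁ hM₁ using hbad
  set W : ℕ → Finset ℕ := fun M => (C ×ˢ (univ : Finset Bool)).biUnion fun q =>
    Bad a b g (if q.2 then (q.1 : ℤ) ^ 2 else -(q.1 : ℤ) ^ 2) P M with hW
  refine ⟨3 * b, (∑ q ∈ C ×ˢ (univ : Finset Bool), M₁ q.1 q.2) + a + (∑ c ∈ C, c) + 1,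
    by positivity, fun M hM => ?_⟩
  have hWc : K * (W M).card ≤ 2 * C.card * M := by
    have h1 : (W M).card ≤ ∑ q ∈ C ×ˢ (univ : Finset Bool),
        (Bad a b g (if q.2 then (q.1 : ℤ) ^ 2 else -(q.1 : ℤ) ^ 2) P M).card := card_biUnion_le
    calc K * (W M).card ≤ K * ∑ q ∈ C ×ˢ (univ : Finset Bool),
        (Bad a b g (if q.2 then (q.1 : ℤ) ^ 2 else -(q.1 : ℤ) ^ 2) P M).card :=
          Nat.mul_le_mul_left _ h1
      _ = ∑ q ∈ C ×ˢ (univ : Finset Bool),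
        K * (Bad a b g (if q.2 then (q.1 : ℤ) ^ 2 else -(q.1 : ℤ) ^ 2) P M).card := by
          rw [mul_sum]
      _ ≤ ∑ _q ∈ C ×ˢ (univ : Finset Bool), M := by
          refine sum_le_sum fun q hq => hM₁ q.1 q.2 (mem_product.1 hq).1 M ?_
          have h2 : M₁ q.1 q.2 ≤ ∑ q ∈ C ×ˢ (univ : Finset Bool), M₁ q.1 q.2 :=
            single_le_sum (f := fun q : ℕ × Bool => M₁ q.1 q.2) (fun _ _ => Nat.zero_le _) hq
          omega
      _ = 2 * C.card * M := by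
          rw [sum_const, card_product, smul_eq_mul, card_univ, Fintype.card_bool]
          ring
  set G := Ico M (2 * M) \ W M with hG
  have hGc : M ≤ 2 * G.card := by
    have h1 := le_card_sdiff (W M) (Ico M (2 * M))
    rw [Nat.card_Ico] at h1
    have h2 : 2 * (W M).card ≤ M := by
      have h3 : (4 * C.card + 4) * (W M).card ≤ 2 * C.card * M := hWc
      by_contra hcon
      have h4 : M < 2 * (W M).card := not_le.1 hcon
      have h5 : 2 * C.card * M ≤ 2 * C.card * (2 * (W M).card) := Nat.mul_le_mul_left _ h4.le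
      have h6 : (4 * C.card + 4) * (W M).card = 2 * C.card * (2 * (W M).card) + 4 * (W M).card := by
        ring
      omega
    rw [hG]
    omega
  set X : ℕ → ℕ := fun u => a + b * u with hX
  have hXlin : ∀ u, ((X u : ℕ) : ℤ) = lin a b u := by
    intro u
    simp only [hX, lin]
    push_cast; ring
  have hXu : ∀ u, M ≤ u → ∀ c ∈ C, c < X u := by
    intro u hu c hc
    have h1 : u ≤ b * u := Nat.le_mul_of_pos_left u hb0
    have h2 := hcP c hc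
    simp only [hX]
    omega
  have hXpos : ∀ u, M ≤ u → 0 < X u := by
    intro u hu
    have h1 : u ≤ b * u := Nat.le_mul_of_pos_left u hb0
    simp only [hX]
    omega
  have hn : ∀ u, M ≤ u → ∀ c ∈ C, ∃ n : ℕ, 0 < n ∧ n + c ^ 4 = g ^ 2 * X u ^ 4 := by
    intro u hu c hc
    have h1 : c ^ 4 < X u ^ 4 := Nat.pow_lt_pow_left (hXu u hu c hc) (by norm_num)
    have h2 : X u ^ 4 ≤ g ^ 2 * X u ^ 4 := Nat.le_mul_of_pos_left _ (by positivity)
    exact ⟨g ^ 2 * X u ^ 4 - c ^ 4, by omega, by omega⟩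
  have key : ∀ u ∈ G, X u ∈ Good g C ∩ Set.Iic (3 * b * M) := by
    intro u hu
    obtain ⟨hu1, hu2⟩ := mem_sdiff.1 hu
    have huM := (mem_Ico.1 hu1).1
    obtain ⟨l1, l2⟩ := hl u
    refine ⟨fun c hc => ?_, ?_⟩
    · obtain ⟨n, hn0, hne⟩ := hn u huM c hc
      have hc0 : 0 < c := (hodd c hc).pos
      refine ⟨g * n, ?_, ?_, ?_, cong_gen hg0 (hXpos u huM) hc0 hn0 hne⟩
      · calc g * n + g * c ^ 4 = g * (n + c ^ 4) := by ring
          _ = g ^ 3 * X u ^ 4 := by rw [hne]; ring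
      · obtain ⟨x', hx'⟩ := l1
        have h1 : c ^ 2 % 8 = 1 := odd_sq (hodd c hc)
        obtain ⟨j, hj⟩ : ∃ j, c ^ 2 = 8 * j + 1 := ⟨c ^ 2 / 8, by omega⟩
        have h2 : 8 * (g * (8 * j ^ 2 + 2 * j)) + (g * n + g) = 8 * (2 * g ^ 3 * x' ^ 4) := by
          have h3 : g * n + g * (c ^ 2) ^ 2 = g * (g ^ 2 * X u ^ 4) := by
            rw [← hne]; ring
          have h4 : X u = 2 * x' := hx'
          rw [hj, h4] at h3
          have e1 : g * (8 * j + 1) ^ 2 = 8 * (g * (8 * j ^ 2 + 2 * j)) + g := by ring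
          have e2 : g * (g ^ 2 * (2 * x') ^ 4) = 8 * (2 * g ^ 3 * x' ^ 4) := by ring
          rw [e1, e2] at h3
          omega
        exact (Nat.dvd_add_right (Dvd.intro _ rfl)).1 (h2 ▸ Dvd.intro _ rfl)
      · have hgn : Nat.Coprime g n := by
          refine Nat.coprime_of_dvd fun p hp h1 h2 => ?_
          have h3 : p ∣ n + c ^ 4 := by
            rw [hne]; exact (dvd_pow h1 two_ne_zero).mul_right _
          have h4 : p ∣ c ^ 4 := (Nat.dvd_add_right h2).1 h3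
          have h5 := Nat.dvd_gcd h1 (hp.dvd_of_dvd_pow h4)
          rw [hcop c hc] at h5
          exact hp.one_lt.ne' (Nat.dvd_one.1 h5)
        refine (Nat.squarefree_mul hgn).2 ⟨hg, ?_⟩
        rw [Nat.squarefree_iff_prime_squarefree]
        intro p hp hd
        have hnz : (n : ℤ) = (g : ℤ) ^ 2 * (X u : ℤ) ^ 4 - (c : ℤ) ^ 4 := by
          have h1 : (n : ℤ) + (c : ℤ) ^ 4 = (g : ℤ) ^ 2 * (X u : ℤ) ^ 4 := by exact_mod_cast hne
          linarith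
        have hd' : (p : ℤ) ^ 2 ∣ (g : ℤ) ^ 2 * (X u : ℤ) ^ 4 - (c : ℤ) ^ 4 := by
          rw [← hnz]
          rw [← sq] at hd
          exact_mod_cast hd
        by_cases hp2 : p = 2
        · have h1 : 2 ∣ n := (dvd_mul_right 2 2).trans (hp2 ▸ hd)
          have h2 : 2 ∣ g ^ 2 * X u ^ 4 := (dvd_pow l1 four_ne_zero).mul_left _
          rw [← hne] at h2
          have h3 : 2 ∣ c ^ 4 := (Nat.dvd_add_right h1).1 h2
          have h4 : 2 ∣ c := Nat.prime_two.dvd_of_dvd_pow h3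
          exact (Nat.not_even_iff_odd.2 (hodd c hc)) (even_iff_two_dvd.2 h4)
        · by_cases hpP : p ≤ P
          · exact l2 p hp hp2 hpP c hc hd'
          · have hpc : ¬ p ∣ c := fun h1 => by
              have h2 := Nat.le_of_dvd hc0 h1
              have h3 := hcP c hc
              omega
            rw [hXlin] at hd'
            apply hu2
            rcases sq_factor hp hp2 hpc hd' with h2 | h2
            · exact mem_biUnion.2 ⟨(c, true), mem_product.2 ⟨hc, mem_univ _⟩,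
                mem_filter.2 ⟨hu1, p, hp, not_le.1 hpP, by simpa using h2⟩⟩
            · exact mem_biUnion.2 ⟨(c, false), mem_product.2 ⟨hc, mem_univ _⟩,
                mem_filter.2 ⟨hu1, p, hp, not_le.1 hpP, by simpa using h2⟩⟩
    · have h4 : b * u ≤ b * (2 * M) := Nat.mul_le_mul_left _ (mem_Ico.1 hu1).2.le
      have h5 : a ≤ b * M := (by omega : a ≤ M).trans (Nat.le_mul_of_pos_left M hb0)
      show X u ≤ 3 * b * M
      simp only [hX]
      nlinarith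
  have hinj : Set.InjOn (fun u => X u) (G : Set ℕ) := by
    intro u hu u' hu' h
    have h6 : X u = X u' := h
    simp only [hX] at h6
    exact Nat.eq_of_mul_eq_mul_left hb0 (by omega)
  have hle : G.card ≤ (Good g C ∩ Set.Iic (3 * b * M)).ncard := by
    rw [← Set.ncard_coe_finset]
    exact Set.ncard_le_ncard_of_injOn (fun u => X u) (fun u hu => key u hu) hinj
      ((Set.finite_Iic _).subset Set.inter_subset_right)
  omega

/-- the count -/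
theorem count_C {g B M₀ : ℕ} {C : Finset ℕ} (hB : 0 < B)
    (hM : ∀ M : ℕ, M₀ ≤ M → M ≤ 2 * (Good g C ∩ Set.Iic (B * M)).ncard) :
    ∃ κ : ℝ, 0 < κ ∧ ∃ Y₀ : ℕ, ∀ Y : ℕ, Y₀ ≤ Y →
      κ * (Y : ℝ) ≤ ((Good g C ∩ Set.Iic Y).ncard : ℝ) := by
  have hB' : (0 : ℝ) < B := by exact_mod_cast hB
  refine ⟨1 / (4 * B), by positivity, B * (M₀ + 1), fun Y hY => ?_⟩
  have h1 : M₀ + 1 ≤ Y / B := (Nat.le_div_iff_mul_le hB).2 (by rw [mul_comm]; exact hY)
  have h2 := hM (Y / B) (by omega)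
  have h3 : B * (Y / B) ≤ Y := Nat.mul_div_le Y B
  have h4 : (Good g C ∩ Set.Iic (B * (Y / B))).ncard ≤ (Good g C ∩ Set.Iic Y).ncard :=
    Set.ncard_le_ncard (Set.inter_subset_inter_right _ (Set.Iic_subset_Iic.2 h3))
      ((Set.finite_Iic _).subset Set.inter_subset_right)
  have h5 : Y < B * (Y / B + 1) := Nat.lt_mul_div_succ Y hB
  have h6 : Y ≤ B * (4 * (Good g C ∩ Set.Iic Y).ncard) := by
    have h7 : Y / B + 1 ≤ 4 * (Good g C ∩ Set.Iic Y).ncard := by omega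
    exact h5.le.trans (Nat.mul_le_mul_left _ h7)
  have h8 : (Y : ℝ) ≤ B * (4 * ((Good g C ∩ Set.Iic Y).ncard : ℝ)) := by exact_mod_cast h6
  rw [div_mul_eq_mul_div, one_mul, div_le_iff₀ (by positivity)]
  linarith

/-- the local condition holds if the prime factors of the elements of `C` are large -/
theorem loc_large {g : ℕ} {C : Finset ℕ}
    (hC : ∀ c ∈ C, ∀ p : ℕ, p.Prime → p ∣ c → 4 * C.card + 1 < p) :
    ∀ p : ℕ, p.Prime → p ≠ 2 → ¬ p ∣ g → ∃ X : ℤ, ∀ c ∈ C,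
      ¬ (p : ℤ) ^ 2 ∣ (g : ℤ) ^ 2 * X ^ 4 - (c : ℤ) ^ 4 := by
  classical
  intro p hp _ hpg
  have : Fact p.Prime := ⟨hp⟩
  have hpp : Prime (p : ℤ) := Nat.prime_iff_prime_int.1 hp
  by_cases hsmall : p ≤ 4 * C.card + 1
  · refine ⟨0, fun c hc hd => ?_⟩
    have h1 : (p : ℤ) ∣ (g : ℤ) ^ 2 * 0 ^ 4 - (c : ℤ) ^ 4 := (dvd_pow_self _ two_ne_zero).trans hd
    have h2 : (p : ℤ) ∣ (c : ℤ) ^ 4 := by
      have e : (g : ℤ) ^ 2 * 0 ^ 4 - (c : ℤ) ^ 4 = -(c : ℤ) ^ 4 := by ring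
      rw [e] at h1
      exact (dvd_neg).1 h1
    have h3 : p ∣ c := by exact_mod_cast hpp.dvd_of_dvd_pow h2
    have := hC c hc p hp h3
    omega
  · have hg' : (g : ZMod p) ≠ 0 := fun h => hpg ((ZMod.natCast_eq_zero_iff g p).1 h)
    set f : ℕ → Polynomial (ZMod p) := fun c =>
      Polynomial.C ((g : ZMod p) ^ 2) * Polynomial.X ^ 4 - Polynomial.C ((c : ZMod p) ^ 4) with hf
    have hfd : ∀ c, (f c).natDegree = 4 := by
      intro c
      simp only [hf]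
      rw [Polynomial.natDegree_sub_C]
      exact Polynomial.natDegree_C_mul_X_pow 4 _ (pow_ne_zero 2 hg')
    have hf0 : ∀ c, f c ≠ 0 := by
      intro c h
      have := hfd c
      rw [h] at this
      simp at this
    set F : Polynomial (ZMod p) := Polynomial.X * ∏ c ∈ C, f c with hF
    have hF0 : F ≠ 0 := mul_ne_zero Polynomial.X_ne_zero (prod_ne_zero_iff.2 fun c _ => hf0 c)
    have hFd : F.natDegree ≤ 1 + 4 * C.card := by
      rw [hF, Polynomial.natDegree_mul Polynomial.X_ne_zero (prod_ne_zero_iff.2 fun c _ => hf0 c),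
        Polynomial.natDegree_X, Polynomial.natDegree_prod _ _ (fun c _ => hf0 c)]
      simp [hfd]
      omega
    obtain ⟨x, hx⟩ : ∃ x : ZMod p, F.eval x ≠ 0 := by
      by_contra hcon
      push Not at hcon
      have h1 : (univ : Finset (ZMod p)) ⊆ F.roots.toFinset := by
        intro x _
        rw [Multiset.mem_toFinset, Polynomial.mem_roots hF0]
        exact hcon x
      have h2 := card_le_card h1
      have h3 : F.roots.toFinset.card ≤ F.natDegree :=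
        (Multiset.toFinset_card_le _).trans (Polynomial.card_roots' F)
      rw [card_univ, ZMod.card] at h2
      omega
    rw [hF, Polynomial.eval_mul, Polynomial.eval_X, Polynomial.eval_prod] at hx
    have hx1 : x ≠ 0 := left_ne_zero_of_mul hx
    have hx2 := prod_ne_zero_iff.1 (right_ne_zero_of_mul hx)
    refine ⟨(x.val : ℤ), fun c hc hd => hx2 c hc ?_⟩
    have h1 : (p : ℤ) ∣ (g : ℤ) ^ 2 * (x.val : ℤ) ^ 4 - (c : ℤ) ^ 4 :=
      (dvd_pow_self _ two_ne_zero).trans hd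
    have h2 := (ZMod.intCast_zmod_eq_zero_iff_dvd _ p).2 h1
    push_cast at h2
    rw [ZMod.natCast_zmod_val] at h2
    simp only [hf, Polynomial.eval_sub, Polynomial.eval_mul, Polynomial.eval_pow,
      Polynomial.eval_C, Polynomial.eval_X]
    exact h2

end Pool.Agent.T6.H61.PT
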